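import Mathlib

set_option autoImplicit false

namespace Pool.Agent.H.MP_1775bc_an

open Set Filter Topology MeasureTheory

variable {E : Type} [NormedAddCommGroup E] [NormedSpace ℝ E]

def LPC (ω : ℝ → E) : Prop :=
  ∀ t, (∃ c, ω =ᶠ[𝓝[>] t] fun _ => c) ∧ (∃ c, ω =ᶠ[𝓝[<] t] fun _ => c)

omit [NormedAddCommGroup E] [NormedSpace ℝ E] in
theorem lpc_floor (c : ℤ → E) (b h : ℝ) (hh : 0 < h) : LPC (fun t => c ⌊(b - t) / h⌋) := by
  intro t
  have hc : Continuous fun s : ℝ => (b - s) / h := by fun_prop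
  constructor
  · have h1 : Tendsto (fun s : ℝ => (b - s) / h) (𝓝[>] t) (𝓝[<] ((b - t) / h)) := by
      refine tendsto_nhdsWithin_of_tendsto_nhds_of_eventually_within _
        ((hc.tendsto t).mono_left nhdsWithin_le_nhds) ?_
      filter_upwards [self_mem_nhdsWithin] with s hs
      have : t < s := hs
      exact div_lt_div_of_pos_right (by linarith) hh
    have h2 := tendsto_pure.mp ((tendsto_floor_left_pure_ceil_sub_one _).comp h1)
    refine ⟨c (⌈(b - t) / h⌉ - 1), ?_⟩
    filter_upwards [h2] with s hs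
    exact congrArg c hs
  · have h1 : Tendsto (fun s : ℝ => (b - s) / h) (𝓝[<] t) (𝓝[≥] ((b - t) / h)) := by
      refine tendsto_nhdsWithin_of_tendsto_nhds_of_eventually_within _
        ((hc.tendsto t).mono_left nhdsWithin_le_nhds) ?_
      filter_upwards [self_mem_nhdsWithin] with s hs
      have : s < t := hs
      exact div_le_div_of_nonneg_right (by linarith) hh.le
    have h2 := tendsto_pure.mp ((tendsto_floor_right_pure_floor _).comp h1)
    refine ⟨c ⌊(b - t) / h⌋, ?_⟩
    filter_upwards [h2] with s hs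
    exact congrArg c hs

theorem ybound {a b c M : ℝ} (hc : 0 ≤ c) (hM : 0 ≤ M) (φ : ℝ → ℝ) (hab : a ≤ b)
    (hφ : ContinuousOn φ (Icc a b)) (h0 : ∀ t ∈ Icc a b, 0 ≤ φ t)
    (h : ∀ t ∈ Icc a b, φ t ≤ c + M * ∫ r in a..t, φ r) :
    ∀ t ∈ Icc a b, φ t ≤ c + M * gronwallBound 0 M c (b - a) := by
  let ψ : ℝ → ℝ := fun r => φ (projIcc a b hab r)
  have hψ : Continuous ψ := (continuousOn_iff_continuous_restrict.mp hφ).comp continuous_projIcc
  have hψφ : ∀ r ∈ Icc a b, ψ r = φ r := fun r hr => by simp only [ψ, projIcc_of_mem hab hr]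
  have hint : ∀ t ∈ Icc a b, ∫ r in a..t, ψ r = ∫ r in a..t, φ r := by
    intro t ht
    refine intervalIntegral.integral_congr fun r hr => hψφ r ?_
    rw [uIcc_of_le ht.1] at hr
    exact ⟨hr.1, hr.2.trans ht.2⟩
  have hd : ∀ t, HasDerivAt (fun u => ∫ r in a..u, ψ r) (ψ t) t := fun t =>
    (hψ.integral_hasStrictDerivAt a t).hasDerivAt
  have hnn : ∀ t ∈ Icc a b, 0 ≤ ∫ r in a..t, ψ r := fun t ht =>
    intervalIntegral.integral_nonneg ht.1 fun r _ => h0 _ (projIcc a b hab r).2
  have hG := norm_le_gronwallBound_of_norm_deriv_right_le (f := fun u => ∫ r in a..u, ψ r)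
    (f' := ψ) (δ := 0) (K := M) (ε := c) (a := a) (b := b)
    (fun t _ => (hd t).continuousAt.continuousWithinAt)
    (fun t _ => (hd t).hasDerivWithinAt) (by simp) (fun t ht => by
      have ht' : t ∈ Icc a b := Ico_subset_Icc_self ht
      rw [Real.norm_of_nonneg (hnn t ht'), hψφ t ht', Real.norm_of_nonneg (h0 t ht'), hint t ht']
      linarith [h t ht'])
  intro t ht
  have h1 := hG t ht
  rw [Real.norm_of_nonneg (hnn t ht), hint t ht] at h1
  have h2 : gronwallBound 0 M c (t - a) ≤ gronwallBound 0 M c (b - a) :=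
    gronwallBound_mono le_rfl hc hM (by linarith [ht.2])
  have := h t ht
  nlinarith

theorem step {u v h η M Y : ℝ} (hh : 0 < h) (hv : v = u + h) (hhη : h ≤ η) (hM : 0 ≤ M)
    (hY : 0 ≤ Y) (A : ℝ → E →L[ℝ] E) (A0 : E →L[ℝ] E) (x y F : ℝ → E) (P : E →L[ℝ] ℝ)
    (hA : ∀ r ∈ Ioc u v, ‖A r‖ ≤ M ∧ ‖A r - A0‖ ≤ η) (hA0 : ‖A0‖ ≤ M)
    (hy : ∀ r ∈ Icc u v, ‖y r‖ ≤ Y)
    (hi : IntervalIntegrable (fun r => A r (y r)) volume u v)
    (hyi : ∀ t ∈ Icc u v, y t - y u = ∫ r in u..t, A r (y r))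
    (hx : ∀ r ∈ Icc u v, HasDerivWithinAt x (F r) (Icc u v) r)
    (hF : ∀ r ∈ Icc u v, ‖F r - F v‖ ≤ η) (hxv : ‖x v - x u‖ ≤ η)
    (hP : P (F v) = P (A0 (x v))) [CompleteSpace E] :
    |P (y v - x v) - (P.comp (1 + h • A0)) (y u - x u)| ≤
      ‖P‖ * (h * η * (Y + M * M * Y + 1 + M)) := by
  have huv : u ≤ v := by linarith
  have hη : 0 ≤ η := hh.le.trans hhη
  have h1 : ∀ r ∈ Icc u v, ‖y r - y u‖ ≤ M * Y * h := by
    intro r hr
    rw [hyi r hr]
    refine (intervalIntegral.norm_integral_le_of_norm_le_const (C := M * Y) fun s hs => ?_).trans ?_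
    · rw [uIoc_of_le hr.1] at hs
      have hs' : s ∈ Ioc u v := ⟨hs.1, hs.2.trans hr.2⟩
      exact ((A s).le_opNorm _).trans
        (mul_le_mul (hA s hs').1 (hy s (Ioc_subset_Icc_self hs')) (norm_nonneg _) hM)
    · rw [abs_of_nonneg (by linarith [hr.1])]
      have : r - u ≤ h := by linarith [hr.2]
      gcongr
  have e1 : ‖y v - y u - h • A0 (y u)‖ ≤ (η * Y + M * (M * Y * h)) * h := by
    have : y v - y u - h • A0 (y u) = ∫ r in u..v, (A r (y r) - A0 (y u)) := by
      rw [intervalIntegral.integral_sub hi intervalIntegrable_const, intervalIntegral.integral_const,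
        hyi v ⟨huv, le_rfl⟩, hv, add_sub_cancel_left]
    rw [this]
    refine (intervalIntegral.norm_integral_le_of_norm_le_const
      (C := η * Y + M * (M * Y * h)) fun s hs => ?_).trans ?_
    · rw [uIoc_of_le huv] at hs
      have e : A s (y s) - A0 (y u) = (A s - A0) (y s) + A0 (y s - y u) := by simp
      rw [e]
      refine (norm_add_le _ _).trans (add_le_add ?_ ?_)
      · exact ((A s - A0).le_opNorm _).trans
          (mul_le_mul (hA s hs).2 (hy s (Ioc_subset_Icc_self hs)) (norm_nonneg _) hη)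
      · exact (A0.le_opNorm _).trans
          (mul_le_mul hA0 (h1 s (Ioc_subset_Icc_self hs)) (norm_nonneg _) hM)
    · rw [hv, add_sub_cancel_left, abs_of_pos hh]
  have e2 : ‖x v - x u - h • F v‖ ≤ η * h := by
    have := norm_image_sub_le_of_norm_deriv_le_segment' (f := fun r => x r - r • F v)
      (f' := fun r => F r - F v) (C := η) (a := u) (b := v)
      (fun r hr => by
        have := (hx r hr).fun_sub ((hasDerivWithinAt_id r (Icc u v)).smul_const (F v))
        simpa using this)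
      (fun r hr => hF r (Ico_subset_Icc_self hr)) v ⟨huv, le_rfl⟩
    have e : x v - v • F v - (x u - u • F v) = x v - x u - h • F v := by
      rw [show h = v - u by linarith, sub_smul]
      abel
    rwa [e, show v - u = h by linarith] at this
  have e3 : ‖h • A0 (x v - x u)‖ ≤ h * (M * η) := by
    rw [norm_smul, Real.norm_of_nonneg hh.le]
    exact mul_le_mul_of_nonneg_left
      ((A0.le_opNorm _).trans (mul_le_mul hA0 hxv (norm_nonneg _) hM)) hh.le
  have e : P (y v - x v) - (P.comp (1 + h • A0)) (y u - x u) =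
      P ((y v - y u - h • A0 (y u)) - (x v - x u - h • F v) - h • A0 (x v - x u)) := by
    simp only [ContinuousLinearMap.comp_apply, add_apply, one_apply_eq_self,
      smul_apply, map_sub, map_add, map_smul, smul_eq_mul, hP]
    ring
  rw [e, ← Real.norm_eq_abs]
  refine (P.le_opNorm _).trans (mul_le_mul_of_nonneg_left ?_ (norm_nonneg _))
  refine (norm_sub_le _ _).trans ((add_le_add ((norm_sub_le _ _).trans (add_le_add e1 e2)) e3).trans ?_)
  have : M * (M * Y * h) * h ≤ M * (M * Y * η) * h := by gcongr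
  nlinarith

theorem key [FiniteDimensional ℝ E] {a b : ℝ} (hab : a < b) (f : ℝ → E → E)
    (J : ℝ → E → E →L[ℝ] E) (hJ : ∀ t ∈ Icc a b, ∀ x, HasFDerivAt (f t) (J t x) x)
    (hJc : ContinuousOn (fun p : ℝ × E => J p.1 p.2) (Icc a b ×ˢ univ))
    (h0 : ∀ t ∈ Icc a b, f t 0 = 0) (x : ℝ → E)
    (hx : ∀ t ∈ Icc a b, HasDerivWithinAt x (f t (x t)) (Icc a b) t)
    (hF : ContinuousOn (fun t => f t (x t)) (Icc a b)) (δ : ℝ) (hδ : 0 < δ) :
    ∃ ω : ℝ → E, LPC ω ∧ ∀ (A : ℝ → E →L[ℝ] E) (y : ℝ → E), (∀ t ∈ Ioc a b, A t = J t (ω t)) →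
      ContinuousOn y (Icc a b) → IntervalIntegrable (fun r => A r (y r)) volume a b →
      (∀ t ∈ Icc a b, y t = x a + ∫ r in a..t, A r (y r)) → ‖x b‖ - δ ≤ ‖y b‖ := by
  have hxc : ContinuousOn x (Icc a b) := fun t ht => (hx t ht).continuousWithinAt
  obtain ⟨R, hR⟩ := isCompact_Icc.exists_bound_of_continuousOn hxc
  have hC : IsCompact (Icc a b ×ˢ Metric.closedBall (0 : E) R) :=
    isCompact_Icc.prod (isCompact_closedBall _ _)
  have hJC : ContinuousOn (fun p : ℝ × E => J p.1 p.2) (Icc a b ×ˢ Metric.closedBall (0 : E) R) :=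
    hJc.mono (prod_mono le_rfl (subset_univ _))
  obtain ⟨M0, hM0⟩ := hC.exists_bound_of_continuousOn hJC
  set M := max M0 0 with hMdef
  have hM : 0 ≤ M := le_max_right _ _
  have hMb : ∀ t ∈ Icc a b, ∀ z ∈ Metric.closedBall (0 : E) R, ‖J t z‖ ≤ M := fun t ht z hz =>
    (hM0 (t, z) ⟨ht, hz⟩).trans (le_max_left _ _)
  set Y := ‖x a‖ + M * gronwallBound 0 M ‖x a‖ (b - a) with hYdef
  have hY : 0 ≤ Y := by
    have h1 : gronwallBound 0 M ‖x a‖ 0 ≤ gronwallBound 0 M ‖x a‖ (b - a) :=
      gronwallBound_mono le_rfl (norm_nonneg _) hM (by linarith)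
    rw [gronwallBound_x0] at h1
    positivity
  set B := Real.exp (M * (b - a)) with hBdef
  have hB : 0 < B := Real.exp_pos _
  set D := Y + M * M * Y + 1 + M with hDdef
  have hD : 0 < D := by positivity
  have hba : 0 < b - a := by linarith
  set η := δ / ((b - a) * B * D) with hηdef
  have hη : 0 < η := by positivity
  obtain ⟨ρ1, hρ1, h1⟩ := Metric.uniformContinuousOn_iff_le.mp (hC.uniformContinuousOn_of_continuous hJC) η hη
  obtain ⟨ρ2, hρ2, h2⟩ := Metric.uniformContinuousOn_iff_le.mp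
    (isCompact_Icc.uniformContinuousOn_of_continuous hF) η hη
  obtain ⟨ρ3, hρ3, h3⟩ := Metric.uniformContinuousOn_iff_le.mp
    (isCompact_Icc.uniformContinuousOn_of_continuous hxc) η hη
  obtain ⟨N, hN⟩ := exists_nat_gt ((b - a) / min (min ρ1 ρ2) (min ρ3 η))
  have hmin : 0 < min (min ρ1 ρ2) (min ρ3 η) := by positivity
  have hNpos : (0 : ℝ) < N := lt_trans (by positivity) hN
  set h := (b - a) / N with hhdef
  have hh : 0 < h := by positivity
  have hhN : N * h = b - a := by rw [hhdef]; field_simp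
  have hhm : h ≤ min (min ρ1 ρ2) (min ρ3 η) := by
    rw [div_lt_iff₀ hmin] at hN
    rw [hhdef, div_le_iff₀ hNpos]
    linarith
  simp only [le_min_iff] at hhm
  have hsel : ∀ (P : E →L[ℝ] ℝ), ∀ t ∈ Icc a b, ∃ z ∈ Metric.closedBall (0 : E) R,
      P (f t (x t)) = P (J t z (x t)) := by
    intro P t ht
    have hd : ∀ s : ℝ, HasDerivAt (fun s : ℝ => P (f t (s • x t))) (P (J t (s • x t) (x t))) s := by
      intro s
      have a1 : HasDerivAt (fun s : ℝ => s • x t) (x t) s := by
        simpa using (hasDerivAt_id s).smul_const (x t)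
      exact P.hasFDerivAt.comp_hasDerivAt s ((hJ t ht (s • x t)).comp_hasDerivAt s a1)
    obtain ⟨s, hs, e⟩ := exists_hasDerivAt_eq_slope _ _ zero_lt_one
      (fun s _ => (hd s).continuousAt.continuousWithinAt) (fun s _ => hd s)
    refine ⟨s • x t, ?_, ?_⟩
    · rw [mem_closedBall_zero_iff, norm_smul, Real.norm_of_nonneg hs.1.le]
      have := hR t ht
      have := norm_nonneg (x t)
      nlinarith [hs.1, hs.2]
    · rw [e]
      simp [h0 t ht]
  choose! z hzb hz using hsel
  obtain ⟨p, hp1, hp2⟩ := exists_dual_vector'' ℝ (x b)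
  let u : ℕ → ℝ := fun k => b - k * h
  let P : ℕ → E →L[ℝ] ℝ := fun k =>
    Nat.rec p (fun k Q => Q.comp (1 + h • J (u k) (z Q (u k)))) k
  have hPs : ∀ k, P (k + 1) = (P k).comp (1 + h • J (u k) (z (P k) (u k))) := fun k => rfl
  have hu : ∀ k ≤ N, u k ∈ Icc a b := by
    intro k hk
    have : (k : ℝ) ≤ N := by exact_mod_cast hk
    have h4 : (0 : ℝ) ≤ k := Nat.cast_nonneg k
    constructor
    · show a ≤ b - k * h
      nlinarith
    · show b - k * h ≤ b
      nlinarith
  have hus : ∀ k, u k = u (k + 1) + h := fun k => by simp only [u]; push_cast; ring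
  have hPn : ∀ k ≤ N, ‖P k‖ ≤ Real.exp (M * (k * h)) := by
    intro k
    induction k with
    | zero => intro _; simpa using (show ‖P 0‖ ≤ 1 from hp1)
    | succ k ih =>
      intro hk
      have hk' : k ≤ N := by omega
      rw [hPs]
      refine (ContinuousLinearMap.opNorm_comp_le _ _).trans ?_
      have a1 : ‖(1 + h • J (u k) (z (P k) (u k)) : E →L[ℝ] E)‖ ≤ Real.exp (M * h) := by
        refine (norm_add_le _ _).trans ?_
        have b1 : ‖(1 : E →L[ℝ] E)‖ ≤ 1 := ContinuousLinearMap.norm_id_le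
        have b2 := hMb _ (hu k hk') _ (hzb (P k) _ (hu k hk'))
        rw [norm_smul, Real.norm_of_nonneg hh.le]
        have b3 := Real.add_one_le_exp (M * h)
        nlinarith
      calc _ ≤ Real.exp (M * (k * h)) * Real.exp (M * h) :=
            mul_le_mul (ih hk') a1 (norm_nonneg _) (Real.exp_pos _).le
        _ = _ := by rw [← Real.exp_add]; push_cast; ring_nf
  have hPB : ∀ k ≤ N, ‖P k‖ ≤ B := by
    intro k hk
    refine (hPn k hk).trans (Real.exp_le_exp.mpr ?_)
    have : (k : ℝ) ≤ N := by exact_mod_cast hk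
    rw [← hhN]
    gcongr
  refine ⟨fun t => (fun m : ℤ => z (P m.toNat) (u m.toNat)) ⌊(b - t) / h⌋,
    lpc_floor (fun m : ℤ => z (P m.toNat) (u m.toNat)) b h hh, ?_⟩
  intro A y hA hyc hyi hy
  have hfl : ∀ (k : ℕ), ∀ r ∈ Ioc (u (k + 1)) (u k), ⌊(b - r) / h⌋ = (k : ℤ) := by
    intro k r hr
    have r1 : b - ((k + 1 : ℕ) : ℝ) * h < r := hr.1
    have r2 : r ≤ b - k * h := hr.2
    push_cast at r1
    rw [Int.floor_eq_iff]
    push_cast
    rw [le_div_iff₀ hh, div_lt_iff₀ hh]
    constructor <;> linarith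
  have hAb : ∀ r ∈ Ioc a b, ‖A r‖ ≤ M := by
    intro r hr
    rw [hA r hr]
    refine hMb r (Ioc_subset_Icc_self hr) _ (hzb _ _ (hu _ ?_))
    have : ⌊(b - r) / h⌋ ≤ (N : ℤ) := by
      rw [Int.floor_le_iff]
      push_cast
      rw [div_lt_iff₀ hh]
      nlinarith [hr.1]
    omega
  have hsub : ∀ s ∈ Icc a b, ∀ t ∈ Icc a b,
      IntervalIntegrable (fun r => A r (y r)) volume s t := by
    intro s hs t ht
    refine hyi.mono_set ?_
    rw [uIcc_of_le hab.le]
    exact uIcc_subset_Icc hs ht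
  have hyY : ∀ t ∈ Icc a b, ‖y t‖ ≤ Y := by
    refine ybound (norm_nonneg _) hM (fun r => ‖y r‖) hab.le hyc.norm (fun _ _ => norm_nonneg _) ?_
    intro t ht
    have hsubt : Icc a t ⊆ Icc a b := Icc_subset_Icc_right ht.2
    conv_lhs => rw [hy t ht]
    refine (norm_add_le _ _).trans (add_le_add le_rfl ?_)
    rw [← intervalIntegral.integral_const_mul]
    refine intervalIntegral.norm_integral_le_of_norm_le ht.1 (Eventually.of_forall fun r hr => ?_) ?_
    · exact ((A r).le_opNorm _).trans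
        (mul_le_mul_of_nonneg_right (hAb r ⟨hr.1, hr.2.trans ht.2⟩) (norm_nonneg _))
    · exact ((continuousOn_const.mul (hyc.mono hsubt).norm).intervalIntegrable_of_Icc ht.1)
  have hind : ∀ k ≤ N, |P 0 (y b - x b) - P k (y (u k) - x (u k))| ≤ k * (B * (h * η * D)) := by
    intro k
    induction k with
    | zero => intro _; simp [u]
    | succ k ih =>
      intro hk
      have hk' : k ≤ N := by omega
      have m1 := hu k hk'
      have m2 := hu (k + 1) hk
      have hsub2 : Icc (u (k + 1)) (u k) ⊆ Icc a b := Icc_subset_Icc m2.1 m1.2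
      have hdist : ∀ r ∈ Icc (u (k + 1)) (u k), dist r (u k) ≤ h := by
        intro r hr
        rw [Real.dist_eq, abs_le]
        have := hus k
        constructor <;> linarith [hr.1, hr.2]
      have hst := step hh (hus k) hhm.2.2 hM hY A (J (u k) (z (P k) (u k))) x y
        (fun t => f t (x t)) (P k) (fun r hr => by
          have hr' : r ∈ Ioc a b := ⟨m2.1.trans_lt hr.1, hr.2.trans m1.2⟩
          refine ⟨hAb r hr', ?_⟩
          rw [hA r hr', ← dist_eq_norm]
          simp only [hfl k r hr, Int.toNat_natCast]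
          refine h1 (r, _) ⟨Ioc_subset_Icc_self hr', hzb _ _ m1⟩ (u k, _) ⟨m1, hzb _ _ m1⟩ ?_
          rw [Prod.dist_eq, dist_self, max_eq_left dist_nonneg]
          exact (hdist r (Ioc_subset_Icc_self hr)).trans hhm.1.1)
        (hMb _ m1 _ (hzb _ _ m1)) (fun r hr => hyY r (hsub2 hr)) (hsub _ m2 _ m1)
        (fun t ht => by
          rw [hy t (hsub2 ht), hy _ m2, add_sub_add_left_eq_sub,
            intervalIntegral.integral_interval_sub_left (hsub _ ⟨le_rfl, hab.le⟩ _ (hsub2 ht))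
              (hsub _ ⟨le_rfl, hab.le⟩ _ m2)])
        (fun r hr => (hx r (hsub2 hr)).mono hsub2)
        (fun r hr => by
          rw [← dist_eq_norm]
          exact h2 r (hsub2 hr) _ m1 ((hdist r hr).trans hhm.1.2))
        (by
          rw [← dist_eq_norm, dist_comm]
          exact h3 _ m2 _ m1 ((hdist _ ⟨le_rfl, by linarith [hus k]⟩).trans hhm.2.1))
        (hz _ _ m1)
      rw [← hPs] at hst
      have b1 : ‖P k‖ * (h * η * D) ≤ B * (h * η * D) :=
        mul_le_mul_of_nonneg_right (hPB k hk') (by positivity)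
      have b2 := abs_sub_le (P 0 (y b - x b)) (P k (y (u k) - x (u k)))
        (P (k + 1) (y (u (k + 1)) - x (u (k + 1))))
      have b3 := ih hk'
      push_cast
      linarith
  have hfin := hind N le_rfl
  have huN : u N = a := by simp only [u]; linarith
  have hya : y a = x a := by simpa using hy a ⟨le_rfl, hab.le⟩
  have e : (N : ℝ) * (B * (h * η * D)) = δ := by
    rw [show (N : ℝ) * (B * (h * η * D)) = (N * h) * B * D * η by ring, hhN, hηdef]
    field_simp
  rw [huN, hya, sub_self, map_zero, sub_zero, e] at hfin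
  have hP0 : P 0 = p := rfl
  rw [hP0, map_sub, hp2] at hfin
  have b4 : p (y b) ≤ ‖y b‖ := by
    have := p.le_opNorm (y b)
    have b5 := le_abs_self (p (y b))
    rw [Real.norm_eq_abs] at this
    nlinarith [norm_nonneg (y b)]
  have := (abs_le.mp hfin).1
  simp only [RCLike.ofReal_real_eq_id, id] at this
  linarith

end Pool.Agent.H.MP_1775bc_an
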